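import Mathlib
import Pool.Agent.W277.UG.D12

/-!
# Geometric uniform boundedness for polynomials
-/

namespace Pool.Agent.Results.MP_62a0c3_nt.Polynomials

open Polynomial

/-- Let `k` be a field of characteristic zero, `K ⊆ Ω` extensions of `k`, and `f` a polynomial of
degree `d ≥ 2` over `K`, not affinely conjugate over `Ω` to a polynomial with coefficients algebraic
over `k`. The number of `x` in `Ω` which are preperiodic for `f` and for which `K(x)` has gonality
at most `D` over `k` is at most `B * d ^ B`, where `B` is the explicit number below. -/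
theorem result (k K Ω : Type*) [Field k] [CharZero k] [Field K] [Field Ω] [Algebra k K]
    [Algebra K Ω] [Algebra k Ω] [IsScalarTower k K Ω] (D d B : ℕ)
    (hB : B = d ^ (24 * (1 + (8 * d + 16 * D + 15) * d ^ (32 * d ^ 2 * (d + 1)))))
    (f : K[X]) (hd : 2 ≤ d) (hf : f.natDegree = d)
    (hiso : ¬ ∃ y b : Ω, y ≠ 0 ∧ ∀ m, IsAlgebraic k
      ((C y⁻¹ * ((f.map (algebraMap K Ω)).comp (C y * X + C b) - C b)).coeff m)) :
    {x : Ω |
      (Set.range fun m : ℕ => (fun z => (f.map (algebraMap K Ω)).eval z)^[m] x).Finite ∧
      ∃ t : IntermediateField.adjoin K {x}, Transcendental k t ∧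
        FiniteDimensional (IntermediateField.adjoin k {t}) (IntermediateField.adjoin K {x}) ∧
        Module.finrank (IntermediateField.adjoin k {t}) (IntermediateField.adjoin K {x}) ≤
          D}.encard ≤ ((B * d ^ B : ℕ) : ℕ∞) := by
  rw [hB]
  exact Pool.Agent.W277.UG.geom_bound k K Ω D d f hd hf hiso

end Pool.Agent.Results.MP_62a0c3_nt.Polynomials
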