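import Mathlib
import Pool.Agent.W277.UH.F2

/-!
# Uniform boundedness for all rational maps over rational function fields
-/

namespace Pool.Agent.Results.MP_62a0c3_nt.RationalMapsGonalityOne

open Polynomial

universe u v

/-- The self-map of the projective line `K ∪ {∞}`, where `none` is `∞`, given by the rational
function `p / q`, where `p` and `q` are coprime and `d` is the larger of their degrees: it sends
`x` to `p(x) / q(x)`, or to `∞` when `q(x) = 0`, and it sends `∞` to the quotient of the
coefficients of degree `d`, or to `∞` when that of `q` is zero. -/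
noncomputable def mapP1 {K : Type*} [Field K] (p q : K[X]) (d : ℕ) : Option K → Option K
  | some x => by classical exact if q.eval x = 0 then none else some (p.eval x / q.eval x)
  | none => by classical exact if q.coeff d = 0 then none else some (p.coeff d / q.coeff d)

/-- With `φ(x) = (a x + b) / (c x + e)`, the map `p / q` of degree `d` satisfies
`φ ∘ (p / q) = (u / w) ∘ φ` for some `a, b, c, e` in `K` with `a e ≠ b c` and some polynomials
`u, w` of degree at most `d`, not both zero, with coefficients algebraic over `k`; the equation is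
written with denominators cleared. -/
def IsotrivialOver (k : Type*) {K : Type*} [Field k] [Field K] [Algebra k K] (p q : K[X])
    (d : ℕ) : Prop :=
  ∃ a b c e : K, a * e - b * c ≠ 0 ∧ ∃ u w : K[X], (u ≠ 0 ∨ w ≠ 0) ∧
    u.natDegree ≤ d ∧ w.natDegree ≤ d ∧ (∀ n, IsAlgebraic k (u.coeff n)) ∧
    (∀ n, IsAlgebraic k (w.coeff n)) ∧
    (C a * p + C b * q) * ∑ i ∈ Finset.range (d + 1),
      C (w.coeff i) * (C a * X + C b) ^ i * (C c * X + C e) ^ (d - i) =
    (C c * p + C e * q) * ∑ i ∈ Finset.range (d + 1),
      C (u.coeff i) * (C a * X + C b) ^ i * (C c * X + C e) ^ (d - i)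

/-- There is a function `N` such that, for every field `k` of characteristic zero, every `K = k(t)`
with `t` transcendental over `k`, and every `d ≥ 2`, every rational map `p / q` of degree `d` over
`K` which is not isotrivial has at most `N(d)` preperiodic points in the projective line over
`K`. -/
theorem result : ∃ N : ℕ → ℕ, ∀ (k : Type u) (K : Type v) [Field k] [CharZero k] [Field K]
    [Algebra k K] (t : K), Transcendental k t → IntermediateField.adjoin k {t} = ⊤ →
    ∀ d : ℕ, 2 ≤ d → ∀ p q : K[X], IsCoprime p q → max p.natDegree q.natDegree = d →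
    ¬ IsotrivialOver k p q d →
    {z : Option K | (Set.range fun m : ℕ => (mapP1 p q d)^[m] z).Finite}.encard ≤
      (N d : ℕ∞) := by
  obtain ⟨N, hN⟩ := Pool.Agent.W277.UH.ubp_rationalU.{v, u}
  refine ⟨N, fun k K _ _ _ _ t ht htop d hd p q hco hmax hiso => ?_⟩
  obtain ⟨c, hc0, hc⟩ := hN k K ⟨{t}, by rw [Finset.coe_singleton]; exact htop⟩ ⟨t, ht, by
    constructor
    intro x
    have hx : x ∈ IntermediateField.adjoin k {t} := by
      rw [htop]
      exact IntermediateField.mem_top
    exact isAlgebraic_algebraMap (⟨x, hx⟩ : IntermediateField.adjoin k {t})⟩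
  have h := hc d hd p q hco hmax hiso
  rw [hc0 ⟨t, htop⟩, zero_add, pow_one] at h
  have e : mapP1 p q d = Pool.Agent.W277.UH.ratP1 p q d := by
    funext z
    cases z <;> rfl
  rw [e]
  exact h

end Pool.Agent.Results.MP_62a0c3_nt.RationalMapsGonalityOne
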